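import Pool.Agent.Helper68.QS.St1
import Pool.Agent.Helper68.QCM.M_EQX

/-!
# QD, straightening and transfer, module GEV: equivariance for two coefficients
-/

open MeasureTheory Set Filter Topology Complex
open scoped ContDiff ComplexConjugate ENNReal

namespace Pool.Agent.Helper40.QS

open Pool.Agent.Helper68.QS Pool.Agent.Helper68.QC
open Pool.Agent.Helper68.QCM (sol_congr det_eq_one hasDerivAt_mob mob_injOn isOpen_den)
open Pool.Agent.Helper61.QE (D Dx rf SU Fu FD Ab sy nuT muT syX syY Kap En Et)

/-- the map `w₂ ∘ A` solves the equation of `μ₁` where it is defined -/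
lemma sol_comp2 (hPRE : StPRE) {μ₁ μ₂ : ℂ → ℂ} {A : SL}
    (hA : ∀ᵐ z : ℂ, μ₂ (mob A z) * den A z ^ 2 = μ₁ z * conj (den A z) ^ 2) {w : ℂ ≃ₜ ℂ}
    (hw : Sol μ₂ univ w) : Sol μ₁ {z | den A z ≠ 0} (fun z => w (mob A z)) := by
  have hV := isOpen_den A
  have hd : DifferentiableOn ℂ (mob A) {z | den A z ≠ 0} := fun z hz =>
    (hasDerivAt_mob A hz).differentiableAt.differentiableWithinAt
  have hne : ∀ z ∈ {z | den A z ≠ 0}, deriv (mob A) z ≠ 0 := fun z hz => by
    rw [(hasDerivAt_mob A hz).deriv]
    exact one_div_ne_zero (pow_ne_zero 2 hz)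
  have h := hPRE μ₂ univ {z | den A z ≠ 0} w (mob A) isOpen_univ hV hd (mob_injOn A)
    (mapsTo_univ _ _) hne hw
  refine sol_congr h ?_
  filter_upwards [ae_restrict_mem hV.measurableSet, ae_restrict_of_ae hA] with z hz h1
  have hz' : den A z ≠ 0 := hz
  rw [(hasDerivAt_mob A hz').deriv]
  have hc : conj (den A z) ≠ 0 := by simpa using hz'
  have e : conj (1 / den A z ^ 2) / (1 / den A z ^ 2) = den A z ^ 2 / conj (den A z) ^ 2 := by
    rw [map_div₀, map_one, map_pow]
    field_simp
  rw [e, ← mul_div_assoc, h1]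
  field_simp

theorem pGEV (hEX : Pool.Agent.Helper68.QC.StEX) (hFAC : Pool.Agent.Helper68.QC.StFAC)
    (hPRE : Pool.Agent.Helper68.QC.StPRE) (hAFF : Pool.Agent.Helper68.QC.StAFF) :
    Pool.Agent.Helper68.QS.StGEV := by
  intro k hk μ₁ μ₂ hμ₁ hμ₂ A hA
  obtain ⟨_, _, hws⟩ := hEX k hk μ₂ hμ₂
  have hdet := det_eq_one A
  have hV := isOpen_den A
  have hsol := sol_comp2 hPRE hA hws
  have hfac := hFAC k hk μ₁ hμ₁ {z | den A z ≠ 0} (fun z => nq μ₂ (mob A z)) hV hsol
  generalize nq μ₁ = w at hfac ⊢
  generalize nq μ₂ = v at hws hsol hfac ⊢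
  by_cases hr : A 1 0 = 0
  · -- affine case
    have hs : A 1 1 ≠ 0 := by
      intro h
      rw [h, hr] at hdet
      simp at hdet
    have hden : ∀ z, den A z = A 1 1 := fun z => by unfold den; rw [hr]; ring
    have hVu : {z | den A z ≠ 0} = univ := by
      ext z; simp [hden, hs]
    rw [hVu, image_univ, w.range_coe] at hfac
    have hinj : Function.Injective (fun ζ => v (mob A (w.symm ζ))) := by
      intro ζ ζ' h
      have h1 := v.injective h
      have h2 := mob_injOn A (by rw [hVu]; trivial) (by rw [hVu]; trivial) h1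
      exact w.symm.injective h2
    obtain ⟨α, β, hα, hE⟩ := hAFF _ (differentiableOn_univ.1 hfac) hinj
    obtain ⟨e, he⟩ := IsAlgClosed.exists_pow_nat_eq α (n := 2) (by norm_num)
    have he0 : e ≠ 0 := by
      rintro rfl
      apply hα
      rw [← he]; norm_num
    let B : SL := ⟨!![e, β / e; 0, 1 / e], by
      rw [Matrix.det_fin_two]
      simp
      field_simp⟩
    have b00 : B 0 0 = e := rfl
    have b01 : B 0 1 = β / e := rfl
    have b10 : B 1 0 = 0 := rfl
    have b11 : B 1 1 = 1 / e := rfl
    have hdB : ∀ ζ, den B ζ = 1 / e := fun ζ => by unfold den; rw [b10, b11]; ring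
    refine ⟨B, fun z => ?_, fun z _ => ?_, ?_, fun h => (h hr).elim⟩
    · rw [hden, hdB]
      simp [hs, he0]
    · have := hE (w z)
      simp only [w.symm_apply_apply] at this
      rw [this]
      unfold mob
      rw [hdB, b00, b01, ← he]
      field_simp
    · rw [b10]
      simp [hr]
  · -- general case
    set p := A 0 0 with hp
    set q := A 0 1 with hq
    set r := A 1 0 with hrr
    set s := A 1 1 with hss
    set e₀ : ℂ := -s / r with he₀
    have hden : ∀ z, den A z = r * (z - e₀) := fun z => by
      unfold den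
      rw [he₀]
      field_simp
      ring
    have hden0 : ∀ z, den A z = 0 ↔ z = e₀ := fun z => by
      rw [hden]
      simp [hr, sub_eq_zero]
    have hVe : {z | den A z ≠ 0} = {e₀}ᶜ := by
      ext z; simp [hden0]
    have hmob : ∀ z, z ≠ e₀ → mob A z = p / r - 1 / (r ^ 2 * (z - e₀)) := fun z hz => by
      have hz' : z - e₀ ≠ 0 := sub_ne_zero.2 hz
      unfold mob
      rw [hden, ← hp, ← hq]
      have h1 : p * e₀ + q = -1 / r := by
        rw [he₀]
        field_simp
        linear_combination -hdet
      have h2 : p * z + q = p * (z - e₀) + -1 / r := by rw [← h1]; ring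
      rw [h2]
      field_simp
      ring
    set c : ℂ := w e₀ with hc
    set d : ℂ := v (p / r) with hd
    have hWV : (w '' {z | den A z ≠ 0} : Set ℂ) = {c}ᶜ := by
      rw [hVe, image_compl_eq w.bijective, image_singleton]
    rw [hWV] at hfac
    set h : ℂ → ℂ := fun ζ => v (mob A (w.symm ζ)) with hh
    have hsymm : ∀ ζ, ζ ≠ c → w.symm ζ ≠ e₀ := by
      intro ζ hζ h1
      apply hζ
      rw [hc, ← h1, w.apply_symm_apply]
    have hne : ∀ ζ, ζ ≠ c → h ζ ≠ d := by
      intro ζ hζ h1
      have h2 := v.injective h1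
      rw [hmob _ (hsymm ζ hζ)] at h2
      have h3 : w.symm ζ - e₀ ≠ 0 := sub_ne_zero.2 (hsymm ζ hζ)
      have h4 : 1 / (r ^ 2 * (w.symm ζ - e₀)) = 0 := by linear_combination -h2
      have h5 : r ^ 2 * (w.symm ζ - e₀) ≠ 0 := mul_ne_zero (pow_ne_zero 2 hr) h3
      exact one_div_ne_zero h5 h4
    have hinj : ∀ ζ ζ', ζ ≠ c → ζ' ≠ c → h ζ = h ζ' → ζ = ζ' := by
      intro ζ ζ' h1 h2 h3
      have h4 := v.injective h3
      have h5 := mob_injOn A (by rw [hVe]; exact hsymm ζ h1) (by rw [hVe]; exact hsymm ζ' h2) h4
      exact w.symm.injective h5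
    -- the function E
    classical
    set E : ℂ → ℂ := fun ζ => if ζ = c then 0 else (h ζ - d)⁻¹ with hEdef
    have hEc : E c = 0 := by simp [hEdef]
    have hEn : ∀ ζ, ζ ≠ c → E ζ = (h ζ - d)⁻¹ := fun ζ hζ => by simp [hEdef, hζ]
    have hEinj : Function.Injective E := by
      intro ζ ζ' he
      by_cases h1 : ζ = c
      · by_cases h2 : ζ' = c
        · rw [h1, h2]
        · rw [h1, hEc, hEn _ h2] at he
          exact absurd he.symm (inv_ne_zero (sub_ne_zero.2 (hne _ h2)))
      · by_cases h2 : ζ' = c
        · rw [h2, hEc, hEn _ h1] at he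
          exact absurd he (inv_ne_zero (sub_ne_zero.2 (hne _ h1)))
        · rw [hEn _ h1, hEn _ h2] at he
          have h3 := inv_injective he
          exact hinj _ _ h1 h2 (by linear_combination h3)
    have hdiff : DifferentiableOn ℂ E (univ \ {c}) := by
      have h1 : DifferentiableOn ℂ (fun ζ => (h ζ - d)⁻¹) (univ \ {c}) := by
        refine DifferentiableOn.inv ?_ ?_
        · refine DifferentiableOn.sub_const ?_ d
          refine hfac.mono ?_
          intro ζ hζ
          exact hζ.2
        · intro ζ hζ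
          exact sub_ne_zero.2 (hne ζ hζ.2)
      exact h1.congr fun ζ hζ => hEn ζ hζ.2
    -- continuity at c
    have hcont : ContinuousAt E c := by
      have t1 : Tendsto w.symm (𝓝[≠] c) (𝓝[≠] e₀) := by
        refine tendsto_nhdsWithin_iff.2 ⟨?_, ?_⟩
        · have h1 : Tendsto w.symm (𝓝 c) (𝓝 (w.symm c)) := w.symm.continuous.continuousAt
          rw [hc, w.symm_apply_apply] at h1
          exact h1.mono_left nhdsWithin_le_nhds
        · filter_upwards [self_mem_nhdsWithin] with ζ hζ
          exact hsymm ζ hζ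
      have t2 : Tendsto (mob A) (𝓝[≠] e₀) (Bornology.cobounded ℂ) := by
        have h1 : Tendsto (fun z : ℂ => r ^ 2 * (z - e₀)) (𝓝[≠] e₀) (𝓝[≠] 0) := by
          refine tendsto_nhdsWithin_iff.2 ⟨?_, ?_⟩
          · have : Tendsto (fun z : ℂ => r ^ 2 * (z - e₀)) (𝓝 e₀) (𝓝 (r ^ 2 * (e₀ - e₀))) := by
              have hcc : Continuous (fun z : ℂ => r ^ 2 * (z - e₀)) := by fun_prop
              exact hcc.continuousAt
            rw [sub_self, mul_zero] at this
            exact this.mono_left nhdsWithin_le_nhds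
          · filter_upwards [self_mem_nhdsWithin] with z hz
            exact mul_ne_zero (pow_ne_zero 2 hr) (sub_ne_zero.2 hz)
        have h2 := Filter.tendsto_inv₀_nhdsNE_zero.comp h1
        have h3 : Tendsto (fun z : ℂ => p / r - (r ^ 2 * (z - e₀))⁻¹) (𝓝[≠] e₀)
            (Bornology.cobounded ℂ) := by
          have h4 := (tendsto_neg_cobounded.comp h2)
          have h5 := (tendsto_const_add_cobounded (p / r)).comp h4
          refine h5.congr fun z => ?_
          simp [sub_eq_add_neg]
        refine h3.congr' ?_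
        filter_upwards [self_mem_nhdsWithin] with z hz
        rw [hmob z hz, one_div]
      have t3 : Tendsto v (Bornology.cobounded ℂ) (Bornology.cobounded ℂ) := by
        rw [Metric.cobounded_eq_cocompact]
        exact v.isClosedEmbedding.tendsto_cocompact
      have t4 : Tendsto (fun ζ => (h ζ - d)⁻¹) (𝓝[≠] c) (𝓝 0) := by
        have h1 : Tendsto h (𝓝[≠] c) (Bornology.cobounded ℂ) := t3.comp (t2.comp t1)
        have h2 := (tendsto_const_add_cobounded (-d)).comp h1
        have h3 := tendsto_inv₀_cobounded.comp h2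
        refine h3.congr fun ζ => ?_
        simp only [Function.comp_apply]
        congr 1
        ring
      rw [continuousAt_iff_punctured_nhds, hEc]
      refine t4.congr' ?_
      filter_upwards [self_mem_nhdsWithin] with ζ hζ
      exact (hEn ζ hζ).symm
    have hent : Differentiable ℂ E :=
      differentiableOn_univ.1 ((differentiableOn_compl_singleton_and_continuousAt_iff
        (s := univ) univ_mem).1 ⟨hdiff, hcont⟩)
    obtain ⟨α, β, hα, hE⟩ := hAFF E hent hEinj
    have hβ : β = -α * c := by
      have := hE c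
      rw [hEc] at this
      linear_combination -this
    have hform : ∀ ζ, ζ ≠ c → h ζ = d + 1 / (α * (ζ - c)) := by
      intro ζ hζ
      have h1 := hE ζ
      rw [hEn ζ hζ, hβ] at h1
      have h2 : (h ζ - d)⁻¹ = α * (ζ - c) := by rw [h1]; ring
      have h3 : h ζ - d = (α * (ζ - c))⁻¹ := by rw [← h2, inv_inv]
      rw [one_div, ← h3]
      ring
    obtain ⟨e, he⟩ := IsAlgClosed.exists_pow_nat_eq (-α) (n := 2) (by norm_num)
    have he0 : e ≠ 0 := by
      rintro rfl
      apply hα
      have : (0 : ℂ) ^ 2 = 0 := by norm_num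
      rw [this] at he
      linear_combination he
    let B : SL := ⟨!![d * α / e, (1 - d * α * c) / e; α / e, -α * c / e], by
      rw [Matrix.det_fin_two]
      simp
      field_simp
      rw [he]
      ring⟩
    have b00 : B 0 0 = d * α / e := rfl
    have b01 : B 0 1 = (1 - d * α * c) / e := rfl
    have b10 : B 1 0 = α / e := rfl
    have b11 : B 1 1 = -α * c / e := rfl
    have hdB : ∀ ζ, den B ζ = α * (ζ - c) / e := fun ζ => by
      unfold den
      rw [b10, b11]
      ring
    refine ⟨B, fun z => ?_, fun z hz => ?_, ?_, fun _ => ?_⟩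
    · rw [hden0, hdB]
      constructor
      · intro hz
        rw [hz, ← hc, sub_self, mul_zero, zero_div]
      · intro hz
        have h1 : w z - c = 0 := by
          rcases div_eq_zero_iff.1 hz with h1 | h1
          · rcases mul_eq_zero.1 h1 with h2 | h2
            · exact absurd h2 hα
            · exact h2
          · exact absurd h1 he0
        exact w.injective (sub_eq_zero.1 h1)
    · have hz' : z ≠ e₀ := fun h1 => hz ((hden0 z).2 h1)
      have hwz : w z ≠ c := fun h1 => hz' (w.injective h1)
      have h1 := hform (w z) hwz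
      simp only [hh, w.symm_apply_apply] at h1
      rw [h1]
      unfold mob
      rw [hdB, b00, b01]
      have h2 : w z - c ≠ 0 := sub_ne_zero.2 hwz
      field_simp
      ring
    · rw [b10]
      constructor
      · intro h1
        exact absurd h1 hr
      · intro h1
        rcases div_eq_zero_iff.1 h1 with h2 | h2
        · exact absurd h2 hα
        · exact absurd h2 he0
    · rw [b00, b10]
      have : d * α / e / (α / e) = d := by field_simp
      rw [this]

end Pool.Agent.Helper40.QS
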